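import Pool.Agent.Y218.RC2

set_option autoImplicit false

/-!
# MP_6aac57_ag, Q1 (negative answer): one curve for all periods, with many rational components

Let `k` be an algebraically closed field of characteristic zero, `N ≥ 2` and `d ≥ 2`. ONE curve
`Γ ⊆ M_d^N`, the closure of the set of the classes of the maps
`f_t = [x_0^d : … : x_{N-1}^d : x_N^d + t x_0^(d-1) x_N]`, has for EVERY `n ≥ 1` the property that
`i_n⁻¹(Γ)` has an irreducible component which is a rational curve (so not of general type) and which
dominates `Γ`; and the number of such components is at least `φ(d^n - 1) / (d^3 + d^2)` for `n ≥ 4`,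
so that it tends to infinity with `n`.

The starting result `RationalComponent` gives, over `ℂ`, for each `n` some `Γ` which is allowed to
depend on `n` and one component over it. The new point for the number: the cross ratio of the four
collinear points `P, f(P), f²(P), f³(P)` is constant on each of the components.
-/

namespace Pool.Agent.Results.MP_6aac57_ag.OneCurveForAllPeriods

open Pool.Agent.Helper819.Dyn Pool.Agent.Y218.RC

/-- **One curve in the moduli space with rational components over it for all periods**, whose number
tends to infinity. -/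
theorem result (k : Type) [Field k] [IsAlgClosed k] [CharZero k] {N d : ℕ} (hN : 2 ≤ N)
    (hd : 2 ≤ d) : ∃ Γ : Set (Moduli k N d), IsClosed Γ ∧ IsIrreducible Γ ∧ ¬ Γ.Subsingleton ∧
      Γ = closure (Set.range fun t : k => cls (ft hN hd t)) ∧
      (∀ n, 1 ≤ n → ∃ Δ ∈ irreducibleComponents ↥(forget k N d n ⁻¹' Γ),
        IsRationalCurve (Subtype.val '' Δ) ∧
        closure (forget k N d n '' (Subtype.val '' Δ)) = Γ) ∧
      ∀ n, 4 ≤ n → ∃ S : Finset (Set ↥(forget k N d n ⁻¹' Γ)),
        Nat.totient (d ^ n - 1) ≤ (d ^ 3 + d ^ 2) * S.card ∧
        ∀ Δ ∈ S, Δ ∈ irreducibleComponents ↥(forget k N d n ⁻¹' Γ) ∧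
          IsRationalCurve (Subtype.val '' Δ) ∧
          closure (forget k N d n '' (Subtype.val '' Δ)) = Γ :=
  main2 k hN hd

end Pool.Agent.Results.MP_6aac57_ag.OneCurveForAllPeriods
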